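import Pool.Agent.Lib.H12Z.Z3C

/-!
# Lattice samples of the Gaussian spectrogram of finite Gabor sums

The definitions used in the statement: `H12S.stft`, `H12S.Psi`, `H12S.SameSamples`, `H12S.Dense8`
(`Lib/H12S/Defs.lean`), `H12S.IndepQ`, `H12S.SignEq`, `H12S.toC` (`Lib/H12S/FDefs.lean`), `H12G.ex`, `H12G.Gam`,
`H12G.GamSum`, `H12G.GaborSum` (`Lib/H12G/Defs.lean`).
-/

open MeasureTheory H12S H12G

namespace Pool.Agent.Results.MP_ec7a01_an.GaborSignals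

/-- The window is `exp (-π t ^ 2)`, the lattice is `{(a m + b n, c m + d n)}`. -/
theorem result {a b c d : ℝ} (hdet : a * d - b * c ≠ 0) :
    -- real signals: `f` a Gabor sum, `h` arbitrary
    (Dense8 a b c d → (IndepQ a b ↔ ∀ f h : ℝ → ℝ, GaborSum (toC f) → MemLp h 2 volume →
      SameSamples a b c d (toC f) (toC h) → SignEq f h)) ∧
    -- complex signals: `f` a Gabor sum, `h` arbitrary
    (Dense8 a b c d → ∀ f h : ℝ → ℂ, GaborSum f → MemLp h 2 volume → SameSamples a b c d f h →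
      ∃ h' : ℝ → ℂ, GaborSum h' ∧ ∀ᵐ t : ℝ, h t = h' t) ∧
    -- both signals real-valued finite Gabor sums, every lattice
    (IndepQ a b ↔ ∀ f h : ℝ → ℝ, GaborSum (toC f) → GaborSum (toC h) →
      SameSamples a b c d (toC f) (toC h) → (∀ t, h t = f t) ∨ ∀ t, h t = -f t) ∧
    -- both signals complex-valued finite Gabor sums, every lattice: description of all pairs
    (∀ f h : ℝ → ℂ, GaborSum f → GaborSum h →
      (SameSamples a b c d f h ↔ ∃ A B : ℂ → ℂ, GamSum ⟨a, -c⟩ ⟨b, -d⟩ A ∧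
        GamSum ⟨a, -c⟩ ⟨b, -d⟩ B ∧ (∃ z, A z ≠ 0) ∧ (∃ z, B z ≠ 0) ∧
        (∀ z, B z * Psi h z = A z * Psi f z) ∧
        ∀ m n : ℤ, ‖A (m * (⟨a, -c⟩ : ℂ) + n * (⟨b, -d⟩ : ℂ))‖ =
          ‖B (m * (⟨a, -c⟩ : ℂ) + n * (⟨b, -d⟩ : ℂ))‖)) :=
  ⟨fun hD => H12Z.real_iff hdet hD, fun hD _ _ hf hh H => H12Z.gabor_of_samples hD hf hh H,
    gabor_real hdet, fun _ _ hf hh => gabor_complex hdet hf hh⟩

end Pool.Agent.Results.MP_ec7a01_an.GaborSignals
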