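import Pool.Agent.Lib.H12L.X3

/-!
# Lattice samples of the Gaussian spectrogram of localized signals; the critical radius for Gabor sums

The definitions used in the statement: `H12S.stft`, `H12S.SameSamples` (`Lib/H12S/Defs.lean`),
`H12S.PhaseEq` (`Lib/H12S/FDefs.lean`), `H12L.DenseWithin`, `H12L.Localized` (`Lib/H12L/Defs.lean`),
`H12L.gab`, `H12L.GaborIn` (`Lib/H12L/Defs2.lean`).
-/

open MeasureTheory H12S H12L

namespace Pool.Agent.Results.MP_ec7a01_an.LocalizedSignals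

/-- The window is `exp (-π t ^ 2)`, the lattice is `{(a m + b n, c m + d n)}`. -/
theorem result {a b c d : ℝ} (hdet : a * d - b * c ≠ 0) (hD : DenseWithin (1 / 8) a b c d)
    (x₀ w₀ : ℝ) :
    -- localized `f`, arbitrary `h`
    (∀ τ : ℝ, 0 ≤ τ → 2 * τ * Real.sqrt (a ^ 2 + c ^ 2) < Real.pi →
      2 * τ * |a * d - b * c| < Real.pi * Real.sqrt (a ^ 2 + c ^ 2) →
      ∀ f h : ℝ → ℂ, MemLp f 2 volume → MemLp h 2 volume → Localized τ x₀ w₀ f →
        SameSamples a b c d f h → PhaseEq f h) ∧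
    -- finite Gabor sums with shifts in a disc, arbitrary `h`: the critical radius
    (a ^ 2 + c ^ 2 ≤ |a * d - b * c| → ∀ ρ : ℝ, 0 ≤ ρ →
      (4 * ρ ^ 2 * (a * d - b * c) ^ 2 < a ^ 2 + c ^ 2 ↔
        ∀ f h : ℝ → ℂ, GaborIn ρ x₀ w₀ f → MemLp h 2 volume → SameSamples a b c d f h →
          PhaseEq f h)) :=
  ⟨fun _ hτ0 h1 h2 _ _ hf hh hloc H => localized_unique' hdet hD hτ0 h1 h2 hf hh hloc H,
    fun hac _ hρ => critical_radius hdet x₀ w₀ hD hρ hac⟩

end Pool.Agent.Results.MP_ec7a01_an.LocalizedSignals
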