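import Pool.Agent.Lib.H12S.F6

/-!
# Retrieval from lattice samples of the Gaussian spectrogram for signals with one-sided support or spectrum

The definitions used in the statement:
`H12S.stft`, `H12S.SameSamples`, `H12S.Dense8` (`Lib/H12S/Defs.lean`), `H12S.Spec` (`Lib/H12S/P1.lean`),
`H12S.IndepQ`, `H12S.PhaseEq`, `H12S.SignEq`, `H12S.toC`, `H12S.ZeroRight` (`Lib/H12S/FDefs.lean`),
`H12S.VanishHalf`, `H12S.OneSided` (`Lib/H12S/F6.lean`).
-/

open MeasureTheory H12S

namespace Pool.Agent.Results.MP_ec7a01_an.OneSidedSignals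

/-- The window is `exp (-π t ^ 2)`, the lattice is `{(a m + b n, c m + d n)}`. -/
theorem result {a b c d : ℝ} (hdet : a * d - b * c ≠ 0) :
    -- lattices with every point of the plane within `1/8`
    (Dense8 a b c d →
      -- real signals, one of them zero on a half-line
      (∀ f h : ℝ → ℝ, MemLp f 2 volume → MemLp h 2 volume → VanishHalf (toC f) →
        SameSamples a b c d (toC f) (toC h) → SignEq f h) ∧
      -- complex signals, one of them zero on a half-line
      (IndepQ c d ↔ ∀ f h : ℝ → ℂ, MemLp f 2 volume → MemLp h 2 volume → VanishHalf f →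
        SameSamples a b c d f h → PhaseEq f h) ∧
      -- one signal is a Gaussian times a one-sided spectrum: complex and real signals
      (IndepQ a b ↔ ∀ f h : ℝ → ℂ, MemLp f 2 volume → MemLp h 2 volume → OneSided f →
        SameSamples a b c d f h → PhaseEq f h) ∧
      (IndepQ a b ↔ ∀ f h : ℝ → ℝ, MemLp f 2 volume → MemLp h 2 volume → OneSided (toC f) →
        SameSamples a b c d (toC f) (toC h) → SignEq f h)) ∧
    -- all lattices, both signals in the class
    (∀ (T : ℝ) (f h : ℝ → ℝ), MemLp f 2 volume → MemLp h 2 volume → ZeroRight T (toC f) →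
      ZeroRight T (toC h) → SameSamples a b c d (toC f) (toC h) → SignEq f h) ∧
    (IndepQ c d ↔ ∀ (T : ℝ) (f h : ℝ → ℂ), MemLp f 2 volume → MemLp h 2 volume →
      ZeroRight T f → ZeroRight T h → SameSamples a b c d f h → PhaseEq f h) ∧
    (IndepQ a b ↔ ∀ (κ T : ℝ) (f h : ℝ → ℂ), 0 ≤ κ → MemLp f 2 volume → MemLp h 2 volume →
      Spec κ T f → Spec κ T h → SameSamples a b c d f h → PhaseEq f h) :=
  ⟨fun hD => ⟨fun _ _ hf hh hT H => main_real hdet hD hf hh hT H, main_complex hdet hD,
    main_spec hdet hD, main_spec_real hdet hD⟩,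
    fun _ _ _ hf hh hT hT' H => real_right hdet hf hh hT (Or.inr hT') H,
    main_complex_both hdet, main_spec_both hdet⟩

end Pool.Agent.Results.MP_ec7a01_an.OneSidedSignals
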