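import Mathlib

/-!
# Sign retrieval from spectrogram samples fails on equally spaced vertical lines, for every window

For every real window `g` the two real signals `(cos θ ± sin θ) g(-t)`, `θ = π (2 t - x₀) / (2 α)`, have
the same spectrogram on `(x₀ + α ℤ) × ℝ`: reflect `t` into `x - t` in the integral.
-/

open MeasureTheory Real

namespace Pool.Agent.Results.MP_ec7a01_an.RationalFirstRow

/-- The short-time Fourier transform `V_g f (x, ω)` of the real signal `f` with the real window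
`g`. -/
noncomputable def stft (g f : ℝ → ℝ) (x ω : ℝ) : ℂ :=
  ∫ t : ℝ, (f t : ℂ) * (g (t - x) : ℂ) * Complex.exp (-2 * π * Complex.I * ω * t)

/-- `Λ` allows sign retrieval for `g`: the spectrogram samples on `Λ` determine every real-valued
`f` in `L²` up to sign. -/
def AllowsSignRetrieval (g : ℝ → ℝ) (Λ : Set (ℝ × ℝ)) : Prop :=
  ∀ f h : ℝ → ℝ, MemLp f 2 volume → MemLp h 2 volume →
    (∀ p ∈ Λ, ‖stft g f p.1 p.2‖ = ‖stft g h p.1 p.2‖) →
      f =ᵐ[volume] h ∨ f =ᵐ[volume] fun t => -h t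

/-- The equally spaced vertical lines `(x₀ + α ℤ) × ℝ`. -/
def verticalLines (α x₀ : ℝ) : Set (ℝ × ℝ) := {p | ∃ k : ℤ, p.1 = x₀ + k * α}

/-- The lattice `L ℤ²`. -/
def lattice (L : Matrix (Fin 2) (Fin 2) ℝ) : Set (ℝ × ℝ) :=
  {p | ∃ m n : ℤ, p = (L 0 0 * m + L 0 1 * n, L 1 0 * m + L 1 1 * n)}

/-- the phase -/
noncomputable def th (α x₀ t : ℝ) : ℝ := π * (2 * t - x₀) / (2 * α)

/-- the two signals (`s = 1` and `s = -1`) -/
noncomputable def sg (g : ℝ → ℝ) (α x₀ s t : ℝ) : ℝ :=
  (cos (th α x₀ t) + s * sin (th α x₀ t)) * g (-t)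

theorem th_refl {α x₀ x t : ℝ} {k : ℤ} (hα : α ≠ 0) (hx : x = x₀ + k * α) :
    th α x₀ (x - t) = k * π - th α x₀ t := by
  unfold th
  subst hx
  field_simp
  ring

theorem sg_refl (g : ℝ → ℝ) {α x₀ x t : ℝ} {k : ℤ} (hα : α ≠ 0) (hx : x = x₀ + k * α) :
    sg g α x₀ 1 (x - t) * g (-t) = (-1) ^ k * (sg g α x₀ (-1) t * g (t - x)) := by
  unfold sg
  rw [th_refl hα hx, cos_int_mul_pi_sub, sin_int_mul_pi_sub]
  have h1 : -(x - t) = t - x := by ring
  rw [h1]
  ring

theorem stft_refl (g : ℝ → ℝ) {α x₀ x : ℝ} {k : ℤ} (hα : α ≠ 0) (hx : x = x₀ + k * α) (ω : ℝ) :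
    stft g (sg g α x₀ 1) x ω = (-1) ^ k * Complex.exp (-2 * π * Complex.I * ω * x) *
      (starRingEnd ℂ) (stft g (sg g α x₀ (-1)) x ω) := by
  unfold stft
  rw [← integral_conj, ← integral_const_mul]
  rw [← integral_sub_left_eq_self (fun t : ℝ => ((sg g α x₀ 1 t : ℝ) : ℂ) * (g (t - x) : ℂ) *
    Complex.exp (-2 * π * Complex.I * ω * t)) volume x]
  refine integral_congr_ae (Filter.Eventually.of_forall fun t => ?_)
  simp only
  have h1 : x - t - x = -t := by ring
  have h2 : ((sg g α x₀ 1 (x - t) * g (-t) : ℝ) : ℂ) =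
      (((-1) ^ k * (sg g α x₀ (-1) t * g (t - x)) : ℝ) : ℂ) := by
    rw [sg_refl g (t := t) hα hx]
  push_cast at h2
  rw [h1, h2]
  have h3 : Complex.exp (-2 * π * Complex.I * ω * ((x - t : ℝ) : ℂ)) =
      Complex.exp (-2 * π * Complex.I * ω * x) * Complex.exp (2 * π * Complex.I * ω * t) := by
    rw [← Complex.exp_add]
    congr 1
    push_cast
    ring
  have h4 : (starRingEnd ℂ) (Complex.exp (-2 * π * Complex.I * ω * t)) =
      Complex.exp (2 * π * Complex.I * ω * t) := by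
    rw [← Complex.exp_conj]
    congr 1
    simp only [map_mul, map_neg, Complex.conj_ofReal, Complex.conj_I, map_ofNat]
    ring
  rw [h3, map_mul, map_mul, h4, Complex.conj_ofReal, Complex.conj_ofReal]
  ring

theorem norm_stft (g : ℝ → ℝ) {α x₀ x : ℝ} {k : ℤ} (hα : α ≠ 0) (hx : x = x₀ + k * α) (ω : ℝ) :
    ‖stft g (sg g α x₀ 1) x ω‖ = ‖stft g (sg g α x₀ (-1)) x ω‖ := by
  rw [stft_refl g hα hx ω, norm_mul, norm_mul, norm_zpow, norm_neg, norm_one, one_zpow, one_mul]
  have h1 : (-2 * π * Complex.I * ω * x : ℂ) = ((-2 * π * ω * x : ℝ) : ℂ) * Complex.I := by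
    push_cast
    ring
  rw [h1, Complex.norm_exp_ofReal_mul_I, one_mul, RCLike.norm_conj]

theorem sg_memLp {g : ℝ → ℝ} (hg : MemLp g 2 volume) (α x₀ s : ℝ) :
    MemLp (sg g α x₀ s) 2 volume := by
  have hneg : MemLp (fun t : ℝ => g (-t)) 2 volume :=
    hg.comp_measurePreserving (Measure.measurePreserving_neg volume)
  have hc : Continuous fun t : ℝ => cos (th α x₀ t) + s * sin (th α x₀ t) := by
    unfold th
    fun_prop
  refine MemLp.of_le_mul (c := 1 + |s|) hneg ?_ (Filter.Eventually.of_forall fun t => ?_)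
  · exact hc.aestronglyMeasurable.mul hneg.aestronglyMeasurable
  · unfold sg
    rw [norm_mul]
    refine mul_le_mul_of_nonneg_right ?_ (norm_nonneg _)
    rw [Real.norm_eq_abs]
    refine (abs_add_le _ _).trans ?_
    rw [abs_mul]
    have h1 := abs_cos_le_one (th α x₀ t)
    have h2 := abs_sin_le_one (th α x₀ t)
    have h3 := mul_le_mul_of_nonneg_left h2 (abs_nonneg s)
    linarith

theorem null_sin {α x₀ : ℝ} (hα : α ≠ 0) : ∀ᵐ t : ℝ, sin (th α x₀ t) ≠ 0 := by
  have hcount : ({t : ℝ | sin (th α x₀ t) = 0} : Set ℝ).Countable := by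
    refine (Set.countable_range fun k : ℤ => (x₀ + 2 * α * k) / 2).mono ?_
    intro t ht
    obtain ⟨k, hk⟩ := Real.sin_eq_zero_iff.1 ht
    refine ⟨k, ?_⟩
    unfold th at hk
    have hpi := Real.pi_ne_zero
    field_simp at hk
    simp only
    linarith
  rw [ae_iff]
  have h := hcount.measure_zero volume
  simpa using h

theorem null_cos {α x₀ : ℝ} (hα : α ≠ 0) : ∀ᵐ t : ℝ, cos (th α x₀ t) ≠ 0 := by
  have hcount : ({t : ℝ | cos (th α x₀ t) = 0} : Set ℝ).Countable := by
    refine (Set.countable_range fun k : ℤ => (x₀ + α * (2 * k + 1)) / 2).mono ?_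
    intro t ht
    obtain ⟨k, hk⟩ := Real.cos_eq_zero_iff.1 ht
    refine ⟨k, ?_⟩
    unfold th at hk
    have hpi := Real.pi_ne_zero
    field_simp at hk
    simp only
    linarith
  rw [ae_iff]
  have h := hcount.measure_zero volume
  simpa using h

theorem ae_neg {p : ℝ → Prop} (h : ∀ᵐ t : ℝ, p (-t)) : ∀ᵐ t : ℝ, p t := by
  have h1 := (Measure.measurePreserving_neg (volume : Measure ℝ)).quasiMeasurePreserving.ae h
  filter_upwards [h1] with t ht
  simpa using ht

/-- A window which vanishes almost everywhere. -/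
theorem zero_window {g : ℝ → ℝ} (hg : g =ᵐ[volume] 0) (Λ : Set (ℝ × ℝ)) :
    ¬ AllowsSignRetrieval g Λ := by
  intro h
  have hz : ∀ (f : ℝ → ℝ) (x ω : ℝ), stft g f x ω = 0 := by
    intro f x ω
    unfold stft
    have h1 : ∀ᵐ t : ℝ, g (t - x) = 0 :=
      (measurePreserving_sub_right volume x).quasiMeasurePreserving.ae hg
    rw [← integral_zero ℝ ℂ]
    refine integral_congr_ae ?_
    filter_upwards [h1] with t ht
    rw [ht]
    simp
  have hf : MemLp ((Set.Icc (0 : ℝ) 1).indicator fun _ => (1 : ℝ)) 2 volume :=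
    memLp_indicator_const 2 measurableSet_Icc 1 (Or.inr (by simp))
  have hcontra : ¬ ((Set.Icc (0 : ℝ) 1).indicator (fun _ => (1 : ℝ)) =ᵐ[volume] fun _ => (0 : ℝ)) := by
    intro h1
    have h2 : volume (Set.Icc (0 : ℝ) 1) = 0 := by
      rw [Filter.EventuallyEq, ae_iff] at h1
      refine measure_mono_null ?_ h1
      intro t ht
      show ¬ (Set.Icc (0 : ℝ) 1).indicator (fun _ => (1 : ℝ)) t = 0
      rw [Set.indicator_of_mem ht]
      exact one_ne_zero
    simp at h2
  rcases h _ (fun _ => 0) hf (MemLp.zero') (fun p _ => by rw [hz, hz]) with h1 | h1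
  · exact hcontra h1
  · refine hcontra ?_
    simpa using h1

/-- Equally spaced vertical lines never allow sign retrieval. -/
theorem lines {g : ℝ → ℝ} (hg : MemLp g 2 volume) {α x₀ : ℝ} (hα : α ≠ 0) {Λ : Set (ℝ × ℝ)}
    (hΛ : Λ ⊆ verticalLines α x₀) : ¬ AllowsSignRetrieval g Λ := by
  by_cases hz : g =ᵐ[volume] 0
  · exact zero_window hz Λ
  intro h
  have hsame : ∀ p ∈ Λ, ‖stft g (sg g α x₀ 1) p.1 p.2‖ = ‖stft g (sg g α x₀ (-1)) p.1 p.2‖ := by
    intro p hp
    obtain ⟨k, hk⟩ := hΛ hp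
    exact norm_stft g hα hk p.2
  rcases h _ _ (sg_memLp hg α x₀ 1) (sg_memLp hg α x₀ (-1)) hsame with h1 | h1
  · refine hz (ae_neg (p := fun t => g t = 0) ?_)
    filter_upwards [h1, null_sin (x₀ := x₀) hα] with t ht hs
    unfold sg at ht
    have h2 : sin (th α x₀ t) * g (-t) = 0 := by linarith
    exact (mul_eq_zero.1 h2).resolve_left hs
  · refine hz (ae_neg (p := fun t => g t = 0) ?_)
    filter_upwards [h1, null_cos (x₀ := x₀) hα] with t ht hs
    unfold sg at ht
    have h2 : cos (th α x₀ t) * g (-t) = 0 := by linarith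
    exact (mul_eq_zero.1 h2).resolve_left hs

/-- For every real-valued window `g` in `L²`: no union of equally spaced vertical lines, and no
lattice `L ℤ²` such that the entries of the first row of `L` are linearly dependent over `ℚ`, allows
sign retrieval for `g`. -/
theorem result (g : ℝ → ℝ) (hg : MemLp g 2 volume) :
    (∀ α x₀ : ℝ, 0 < α → ¬ AllowsSignRetrieval g (verticalLines α x₀)) ∧
    ∀ L : Matrix (Fin 2) (Fin 2) ℝ, ¬ LinearIndependent ℚ ![L 0 0, L 0 1] →
      ¬ AllowsSignRetrieval g (lattice L) := by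
  refine ⟨fun α x₀ hα => lines hg hα.ne' Set.Subset.rfl, fun L hL => ?_⟩
  have hdep : ∃ (α : ℝ) (u v : ℤ), α ≠ 0 ∧ L 0 0 = u * α ∧ L 0 1 = v * α := by
    rw [LinearIndependent.pair_iff] at hL
    push Not at hL
    obtain ⟨s, t, hst, hne⟩ := hL
    by_cases ht : t = 0
    · have hs : s ≠ 0 := fun hs => hne hs ht
      have h0 : L 0 0 = 0 := by
        rw [ht, zero_smul, add_zero] at hst
        exact (smul_eq_zero.1 hst).resolve_left hs
      by_cases h1 : L 0 1 = 0
      · exact ⟨1, 0, 0, one_ne_zero, by simp [h0], by simp [h1]⟩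
      · exact ⟨L 0 1, 0, 1, h1, by simp [h0], by simp⟩
    · have h1 : L 0 1 = -(s / t : ℚ) * L 0 0 := by
        have ht' : ((t : ℚ) : ℝ) ≠ 0 := by exact_mod_cast ht
        have h2 : (s : ℝ) * L 0 0 + (t : ℝ) * L 0 1 = 0 := by
          simpa [Rat.smul_def] using hst
        push_cast
        field_simp
        linarith
      by_cases h0 : L 0 0 = 0
      · exact ⟨1, 0, 0, one_ne_zero, by simp [h0], by rw [h1, h0]; simp⟩
      · set r : ℚ := s / t with hr
        refine ⟨L 0 0 / r.den, r.den, -r.num, div_ne_zero h0 (by exact_mod_cast r.den_ne_zero),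
          ?_, ?_⟩
        · have : (r.den : ℝ) ≠ 0 := by exact_mod_cast r.den_ne_zero
          push_cast
          field_simp
        · rw [h1]
          have hd : (r.den : ℝ) ≠ 0 := by exact_mod_cast r.den_ne_zero
          have hq : (r : ℝ) = r.num / r.den := by
            conv_lhs => rw [← Rat.num_div_den r]
            push_cast
            rfl
          rw [hq]
          push_cast
          field_simp
  obtain ⟨α, u, v, hα, hu, hv⟩ := hdep
  refine lines hg (x₀ := 0) hα ?_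
  rintro p ⟨m, n, rfl⟩
  refine ⟨u * m + v * n, ?_⟩
  rw [show L 0 0 * m + L 0 1 * n = 0 + ((u * m + v * n : ℤ) : ℝ) * α by
    rw [hu, hv]
    push_cast
    ring]

end Pool.Agent.Results.MP_ec7a01_an.RationalFirstRow
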